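import Pool.Agent.U503.EA.Stm

/-!
# Project EA, package SEL: selection of a basis and one more vector in a large set
-/

set_option autoImplicit false

open Finset Function Module SimpleGraph Pool.Agent.TH486.LAC Pool.Agent.Y647.LAC Pool.Agent.U503.VS
open Pool.Agent.U503.EA

namespace Pool.Agent.U452.EA

theorem gap_exists {A : Type} [Fintype A] [DecidableEq A] (WF Av : Finset A) (hsub : Av ⊆ WF)
    (S : Finset A) (T : A → A) (hT : Function.Injective T) (hTW : ∀ v ∈ Av, T v ∈ WF)
    (hc : WF.card + S.card < 2 * Av.card) : ∃ v ∈ Av, v ∉ S ∧ T v ∈ Av := by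
  by_contra hcon
  push Not at hcon
  have h1 : (Av \ S).image T ⊆ WF \ Av := by
    intro x hx
    obtain ⟨v, hv, rfl⟩ := Finset.mem_image.1 hx
    rw [Finset.mem_sdiff] at hv
    exact Finset.mem_sdiff.2 ⟨hTW v hv.1, hcon v hv.1 hv.2⟩
  have h2 : (Av \ S).card ≤ (WF \ Av).card := by
    rw [← Finset.card_image_of_injective (Av \ S) hT]
    exact Finset.card_le_card h1
  have h3 : (WF \ Av).card = WF.card - Av.card := Finset.card_sdiff_of_subset hsub
  have h4 : Av.card - S.card ≤ (Av \ S).card := by
    have := Finset.le_card_sdiff S Av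
    exact this
  have h5 : Av.card ≤ WF.card := Finset.card_le_card hsub
  omega

/-- extension of a family -/
theorem extend_family {p n : ℕ} [Fact p.Prime] {A : Type} [AddCommGroup A] [Module (ZMod p) A]
    [Fintype A] [DecidableEq A] (Av : Finset A) (hAv : p ^ (n + 1) < Av.card) (e0 e1 : A)
    (he0 : e0 ∈ Av) (he1 : e1 ∈ Av) (hI : LinearIndependent (ZMod p) ![e0, e1]) :
    ∀ j : ℕ, j ≤ n → ∃ I : Fin (j + 2) → A, LinearIndependent (ZMod p) I ∧ (∀ i, I i ∈ Av) ∧
      I 0 = e0 ∧ I 1 = e1 := by
  intro j
  induction j with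
  | zero =>
    intro _
    refine ⟨![e0, e1], hI, ?_, rfl, rfl⟩
    intro i
    fin_cases i
    · exact he0
    · exact he1
  | succ j ih =>
    intro hj
    obtain ⟨I, h1, h2, h3, h4⟩ := ih (by omega)
    have hcard : Nat.card (Submodule.span (ZMod p) (Set.range I)) = p ^ (j + 2) := by
      rw [Module.natCard_eq_pow_finrank (K := ZMod p), finrank_span_eq_card h1, Fintype.card_fin,
        Nat.card_eq_fintype_card, ZMod.card]
    have hx : ∃ x ∈ Av, x ∉ Submodule.span (ZMod p) (Set.range I) := by
      by_contra hcon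
      push Not at hcon
      have h5 : (Av : Set A) ⊆ (Submodule.span (ZMod p) (Set.range I) : Set A) := fun x hx =>
        hcon x hx
      have h6 : (Av : Set A).ncard ≤ (Submodule.span (ZMod p) (Set.range I) : Set A).ncard :=
        Set.ncard_le_ncard h5 (Set.toFinite _)
      rw [Set.ncard_coe_finset] at h6
      have h7 : (Submodule.span (ZMod p) (Set.range I) : Set A).ncard = p ^ (j + 2) := by
        rw [← hcard]
        rfl
      rw [h7] at h6
      have h8 : p ^ (j + 2) ≤ p ^ (n + 1) :=
        Nat.pow_le_pow_right (Nat.Prime.pos Fact.out) (by omega)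
      omega
    obtain ⟨x, hx1, hx2⟩ := hx
    refine ⟨Fin.snoc (α := fun _ => A) I x, linearIndependent_finSnoc.2 ⟨h1, hx2⟩, ?_, ?_, ?_⟩
    · intro i
      refine Fin.lastCases ?_ (fun i => ?_) i
      · rw [Fin.snoc_last]; exact hx1
      · rw [Fin.snoc_castSucc]; exact h2 i
    · have : (0 : Fin (j + 1 + 2)) = Fin.castSucc (0 : Fin (j + 2)) := rfl
      rw [this, Fin.snoc_castSucc]; exact h3
    · have : (1 : Fin (j + 1 + 2)) = Fin.castSucc (1 : Fin (j + 2)) := rfl
      rw [this, Fin.snoc_castSucc]; exact h4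

theorem t_SEL : Pool.Agent.U503.EA.S_SEL := by
  classical
  intro p n _ hp5 A _ _ _ W Q hW hQW h0 hneg hcard r hr
  have hp : p.Prime := Fact.out
  haveI : Fintype A := Fintype.ofFinite A
  have ne2 : (2 : ZMod p) ≠ 0 := by
    intro h
    have h' : ((2 : ℕ) : ZMod p) = 0 := by exact_mod_cast h
    rw [ZMod.natCast_eq_zero_iff] at h'
    have := Nat.le_of_dvd (by norm_num) h'
    omega
  have ne3 : (3 : ZMod p) ≠ 0 := by
    intro h
    have h' : ((3 : ℕ) : ZMod p) = 0 := by exact_mod_cast h
    rw [ZMod.natCast_eq_zero_iff] at h'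
    have := Nat.le_of_dvd (by norm_num) h'
    omega
  obtain ⟨Av, hAvdef⟩ : ∃ Av : Finset A, Av = Q ∪ Q.image (fun v => -v) := ⟨_, rfl⟩
  have hAv : ∀ v, v ∈ Av ↔ v ∈ Q ∨ -v ∈ Q := by
    intro v
    rw [hAvdef, Finset.mem_union, Finset.mem_image]
    constructor
    · rintro (h | ⟨w, hw, rfl⟩)
      · exact Or.inl h
      · right; rwa [neg_neg]
    · rintro (h | h)
      · exact Or.inl h
      · exact Or.inr ⟨-v, h, neg_neg v⟩
  have hAvc : Av.card = 2 * Q.card := by
    rw [hAvdef, Finset.card_union_of_disjoint, Finset.card_image_of_injective _ neg_injective]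
    · omega
    · rw [Finset.disjoint_left]
      intro a ha hb
      obtain ⟨w, hw, rfl⟩ := Finset.mem_image.1 hb
      exact hneg w hw ha
  obtain ⟨WF, hWF⟩ : ∃ WF : Finset A, ∀ v, v ∈ WF ↔ v ∈ W :=
    ⟨Finset.univ.filter (fun v => v ∈ W), fun v => by simp⟩
  have hWc : WF.card = p ^ (n + 2) := by
    have h1 : Nat.card W = p ^ (n + 2) := by
      rw [Module.natCard_eq_pow_finrank (K := ZMod p), hW, Nat.card_eq_fintype_card, ZMod.card]
    have h2 : (WF : Set A) = (W : Set A) := by
      ext v
      exact hWF v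
    rw [← h1, ← Set.ncard_coe_finset, h2]
    rfl
  have hAvW : ∀ v ∈ Av, v ∈ W := by
    intro v hv
    rcases (hAv v).1 hv with h | h
    · exact hQW v h
    · have := W.neg_mem (hQW _ h)
      rwa [neg_neg] at this
  have hsub : Av ⊆ WF := fun v hv => (hWF v).2 (hAvW v hv)
  have hpow : p ^ (n + 2) = p * p ^ (n + 1) := by ring
  have hpow1 : p ≤ p ^ (n + 1) := Nat.le_self_pow (by omega) p
  have hpow5 : 5 * p ^ (n + 1) ≤ p ^ (n + 2) := by
    rw [hpow]; exact Nat.mul_le_mul_right _ hp5
  have hAvbig : p ^ (n + 1) < Av.card := by rw [hAvc]; omega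
  have h0Av : ∀ v ∈ Av, v ≠ 0 := by
    rintro v hv rfl
    rcases (hAv 0).1 hv with h | h
    · exact h0 h
    · rw [neg_zero] at h; exact h0 h
  -- the two first vectors
  have key : ∃ e0 e1 : A, e0 ∈ Av ∧ e1 ∈ Av ∧ LinearIndependent (ZMod p) ![e0, e1] ∧
      ((r = Pi.single 0 2 ∧ (2 : ZMod p) • e0 ∈ Av) ∨
        (r = Pi.single 0 2 - Pi.single 1 1 ∧ (2 : ZMod p) • e0 - e1 ∈ Av)) := by
    have hspan : ∀ e0 ∈ Av, (Finset.univ.filter
        (fun v => v ∈ Submodule.span (ZMod p) {e0})).card = p := by
      intro e0 he0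
      have h1 : Nat.card (Submodule.span (ZMod p) {e0}) = p := by
        rw [Module.natCard_eq_pow_finrank (K := ZMod p), finrank_span_singleton (h0Av e0 he0),
          Nat.card_eq_fintype_card, ZMod.card, pow_one]
      have h2 : ((Finset.univ.filter (fun v => v ∈ Submodule.span (ZMod p) {e0}) : Finset A) :
          Set A) = (Submodule.span (ZMod p) {e0} : Set A) := by
        ext v
        simp
      rw [← Set.ncard_coe_finset, h2]
      exact h1
    have hind : ∀ e0 ∈ Av, ∀ e1, e1 ∉ Finset.univ.filter
        (fun v => v ∈ Submodule.span (ZMod p) {e0}) → LinearIndependent (ZMod p) ![e0, e1] := by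
      intro e0 he0 e1 he1
      rw [LinearIndependent.pair_iff' (h0Av e0 he0)]
      intro a ha
      apply he1
      rw [Finset.mem_filter]
      exact ⟨Finset.mem_univ _, Submodule.mem_span_singleton.2 ⟨a, ha⟩⟩
    rcases hr with hr | hr
    · obtain ⟨e0, he0, -, he2⟩ := gap_exists WF Av hsub ∅ (fun v => (2 : ZMod p) • v)
        (smul_right_injective A ne2) (fun v hv => (hWF _).2 (W.smul_mem _ (hAvW v hv)))
        (by rw [hWc, hAvc, Finset.card_empty]; omega)
      obtain ⟨e1, he1, he1'⟩ : ∃ e1 ∈ Av, e1 ∉ Finset.univ.filter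
          (fun v => v ∈ Submodule.span (ZMod p) {e0}) := by
        by_contra hcon
        push Not at hcon
        have := Finset.card_le_card (show Av ⊆ _ from hcon)
        rw [hspan e0 he0] at this
        omega
      exact ⟨e0, e1, he0, he1, hind e0 he0 e1 he1', Or.inl ⟨hr, he2⟩⟩
    · obtain ⟨e0, he0⟩ : ∃ e0, e0 ∈ Av := by
        have : 0 < Av.card := by omega
        exact Finset.card_pos.1 this
      obtain ⟨e1, he1, he1', he2⟩ := gap_exists WF Av hsub (Finset.univ.filter
          (fun v => v ∈ Submodule.span (ZMod p) {e0})) (fun v => (2 : ZMod p) • e0 - v)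
        (fun a b hab => by
          have : (2 : ZMod p) • e0 - a = (2 : ZMod p) • e0 - b := hab
          exact sub_right_injective this)
        (fun v hv => (hWF _).2 (W.sub_mem (W.smul_mem _ (hAvW e0 he0)) (hAvW v hv)))
        (by rw [hWc, hAvc, hspan e0 he0]; omega)
      exact ⟨e0, e1, he0, he1, hind e0 he0 e1 he1', Or.inr ⟨hr, he2⟩⟩
  obtain ⟨e0, e1, he0, he1, hI2, hr2⟩ := key
  obtain ⟨I, hI, hIA, hI0, hI1⟩ := extend_family Av hAvbig e0 e1 he0 he1 hI2 n le_rfl
  have hsum : (∑ i, r i • I i) ∈ Av := by
    rcases hr2 with ⟨hr, h⟩ | ⟨hr, h⟩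
    · have : ∑ i, r i • I i = (2 : ZMod p) • e0 := by
        rw [hr, Finset.sum_eq_single 0]
        · rw [Pi.single_eq_same, hI0]
        · intro i _ hi
          rw [Pi.single_eq_of_ne hi, zero_smul]
        · intro h; exact absurd (Finset.mem_univ _) h
      rw [this]; exact h
    · have : ∑ i, r i • I i = (2 : ZMod p) • e0 - e1 := by
        rw [hr]
        simp only [Pi.sub_apply, sub_smul]
        rw [Finset.sum_sub_distrib, Finset.sum_eq_single 0, Finset.sum_eq_single 1]
        · rw [Pi.single_eq_same, Pi.single_eq_same, hI0, hI1, one_smul]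
        · intro i _ hi
          rw [Pi.single_eq_of_ne hi, zero_smul]
        · intro h; exact absurd (Finset.mem_univ _) h
        · intro i _ hi
          rw [Pi.single_eq_of_ne hi, zero_smul]
        · intro h; exact absurd (Finset.mem_univ _) h
      rw [this]; exact h
  have hr0 : r 0 = 2 := by
    have h01 : (0 : Fin (n + 2)) ≠ 1 := by
      intro h
      have := congrArg Fin.val h
      simp at this
    rcases hr2 with ⟨hr, -⟩ | ⟨hr, -⟩
    · rw [hr, Pi.single_eq_same]
    · rw [hr, Pi.sub_apply, Pi.single_eq_same, Pi.single_eq_of_ne h01, sub_zero]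
  -- the family
  obtain ⟨x, hx⟩ : ∃ x : Option (Fin (n + 2)) → A, ∀ o, x o = o.elim (∑ i, r i • I i) I :=
    ⟨_, fun _ => rfl⟩
  have hxA : ∀ o, x o ∈ Av := by
    intro o
    rw [hx]
    cases o with
    | none => exact hsum
    | some i => exact hIA i
  rw [Fintype.linearIndependent_iff] at hI
  -- a signed coincidence is trivial
  have hcoin : ∀ c : ZMod p, (c = 1 ∨ c = -1) → ∀ o o', x o = c • x o' → o = o' := by
    intro c hc
    have hc0 : c ≠ 0 := by
      rcases hc with h | h
      · rw [h]; exact one_ne_zero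
      · rw [h]; exact neg_ne_zero.2 one_ne_zero
    have hc2 : (2 : ZMod p) ≠ c := by
      rcases hc with h | h
      · rw [h]
        intro h'
        have : (1 : ZMod p) = 0 := by linear_combination h'
        exact one_ne_zero this
      · rw [h]
        intro h'
        exact ne3 (by linear_combination h')
    have hcc : c * c = 1 := by
      rcases hc with h | h <;> rw [h] <;> ring
    have hnone : ∀ i, (∑ j, r j • I j) = c • I i → False := by
      intro i h
      have h1 := hI (fun j => r j - Pi.single (M := fun _ => ZMod p) i c j) (by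
        simp only [sub_smul]
        rw [Finset.sum_sub_distrib, h, Finset.sum_eq_single i]
        · rw [Pi.single_eq_same, sub_self]
        · intro j _ hj
          rw [Pi.single_eq_of_ne hj, zero_smul]
        · intro h; exact absurd (Finset.mem_univ _) h) 0
      simp only [hr0] at h1
      by_cases hi : (0 : Fin (n + 2)) = i
      · rw [← hi, Pi.single_eq_same] at h1
        exact hc2 (sub_eq_zero.1 h1)
      · rw [Pi.single_eq_of_ne hi, sub_zero] at h1
        exact ne2 h1
    intro o o' h
    rw [hx, hx] at h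
    cases o with
    | none =>
      cases o' with
      | none => rfl
      | some i => exact absurd (hnone i h) id
    | some i =>
      cases o' with
      | none =>
        exfalso
        apply hnone i
        have h2 : I i = c • (∑ j, r j • I j) := h
        rw [h2, smul_smul, hcc, one_smul]
      | some j =>
        by_contra hij
        have hij' : i ≠ j := fun h => hij (by rw [h])
        have h2 : I i = c • I j := h
        have h1 := hI (fun l => Pi.single (M := fun _ => ZMod p) i 1 l -
            Pi.single (M := fun _ => ZMod p) j c l) (by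
          simp only [sub_smul]
          rw [Finset.sum_sub_distrib, Finset.sum_eq_single i, Finset.sum_eq_single j]
          · rw [Pi.single_eq_same, Pi.single_eq_same, one_smul, h2, sub_self]
          · intro l _ hl
            rw [Pi.single_eq_of_ne hl, zero_smul]
          · intro h; exact absurd (Finset.mem_univ _) h
          · intro l _ hl
            rw [Pi.single_eq_of_ne hl, zero_smul]
          · intro h; exact absurd (Finset.mem_univ _) h) j
        rw [Pi.single_eq_of_ne hij'.symm, Pi.single_eq_same, zero_sub] at h1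
        exact hc0 (neg_eq_zero.1 h1)
  -- the signs
  obtain ⟨q, hq⟩ : ∃ q : A → A, ∀ v, q v = if v ∈ Q then v else -v := ⟨_, fun _ => rfl⟩
  have hqQ : ∀ v ∈ Av, q v ∈ Q := by
    intro v hv
    rw [hq]
    split_ifs with h
    · exact h
    · rcases (hAv v).1 hv with h' | h'
      · exact absurd h' h
      · exact h'
  have hqs : ∀ v, q v = v ∨ q v = -v := by
    intro v
    rw [hq]
    split_ifs
    · exact Or.inl rfl
    · exact Or.inr rfl
  have hinj : Function.Injective (fun o => q (x o)) := by
    intro o o' h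
    have h : q (x o) = q (x o') := h
    rcases hqs (x o) with h1 | h1 <;> rcases hqs (x o') with h2 | h2 <;> rw [h1, h2] at h
    · exact hcoin 1 (Or.inl rfl) o o' (by rw [one_smul]; exact h)
    · exact hcoin (-1) (Or.inr rfl) o o' (by rw [neg_smul, one_smul]; exact h)
    · exact hcoin (-1) (Or.inr rfl) o o' (by rw [neg_smul, one_smul, ← h, neg_neg])
    · exact hcoin 1 (Or.inl rfl) o o' (by rw [one_smul]; exact neg_injective h)
  refine ⟨Finset.univ.image (fun o => q (x o)), I, ?_, ?_, Fintype.linearIndependent_iff.2 hI, ?_⟩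
  · intro v hv
    obtain ⟨o, -, rfl⟩ := Finset.mem_image.1 hv
    exact hqQ _ (hxA o)
  · rw [Finset.card_image_of_injective _ hinj, Finset.card_univ, Fintype.card_option,
      Fintype.card_fin]
  · intro a b
    have hmem : ∀ y, y ∈ Finset.univ.image (fun o => q (x o)) ↔ ∃ o, q (x o) = y := by
      intro y
      simp
    show (a ≠ b ∧ (b - a ∈ _ ∨ a - b ∈ _)) ↔ _
    rw [hmem, hmem]
    constructor
    · rintro ⟨hab, ⟨o, ho⟩ | ⟨o, ho⟩⟩
      · refine ⟨hab, o, ?_⟩
        rw [← hx]
        rcases hqs (x o) with h1 | h1 <;> rw [h1] at ho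
        · left; rw [ho]; abel
        · right
          have : x o = a - b := by rw [← neg_sub b a, ← ho, neg_neg]
          rw [this]; abel
      · refine ⟨hab, o, ?_⟩
        rw [← hx]
        rcases hqs (x o) with h1 | h1 <;> rw [h1] at ho
        · right; rw [ho]; abel
        · left
          have : x o = b - a := by rw [← neg_sub a b, ← ho, neg_neg]
          rw [this]; abel
    · rintro ⟨hab, o, h⟩
      refine ⟨hab, ?_⟩
      rw [← hx] at h
      rcases h with h | h <;> rcases hqs (x o) with h1 | h1
      · left; exact ⟨o, by rw [h1, h]; abel⟩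
      · right; exact ⟨o, by rw [h1, h]; abel⟩
      · right; exact ⟨o, by rw [h1, h]; abel⟩
      · left; exact ⟨o, by rw [h1, h]; abel⟩

end Pool.Agent.U452.EA
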